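import Mathlib

open MeasureTheory Set Filter Topology
open scoped ENNReal

namespace Pool.Agent.X19.PB

/-- The law of the power-bias `X^(psi)` when `mu` is the law of `X`: the measure
`sum_k psi_k x^k / E X^k  dmu(x)`. -/
noncomputable def powerBias (psi : ℕ → ℝ) (mu : Measure ℝ) : Measure ℝ :=
  Measure.sum fun k : ℕ =>
    mu.withDensity fun x => ENNReal.ofReal (psi k * x ^ k / ∫ y, y ^ k ∂mu)

/-- The law `Beta(w,1)`: density `w v^(w-1)` on `(0,1)`. -/
noncomputable def betaLaw (w : ℝ) : Measure ℝ :=
  (volume.restrict (Ioo 0 1)).withDensity fun v => ENNReal.ofReal (w * v ^ (w - 1))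

/-- `mu` is the law of a positive random variable solving the fixed point equation. -/
structure IsSolution (w : ℝ) (psi : ℕ → ℝ) (mu : Measure ℝ) : Prop where
  prob : IsProbabilityMeasure mu
  pos : mu (Iic 0) = 0
  moment : ∀ k, 0 < psi k → Integrable (fun x => x ^ k) mu
  fixed : ((betaLaw w).prod (powerBias psi mu)).map (fun p => p.1 * p.2) = mu

end Pool.Agent.X19.PB
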