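import Mathlib
import Pool.Agent.X19.PB.Defs

open MeasureTheory Set Filter Topology
open scoped ENNReal

namespace Pool.Agent.X19.PB

instance (w : ℝ) : SFinite (betaLaw w) := by
  unfold betaLaw; infer_instance

instance (psi : ℕ → ℝ) (mu : Measure ℝ) [SFinite mu] : SFinite (powerBias psi mu) := by
  unfold powerBias; infer_instance

lemma powerBias_ac (psi : ℕ → ℝ) (mu : Measure ℝ) : powerBias psi mu ≪ mu := by
  unfold powerBias
  exact Measure.absolutelyContinuous_sum_left fun k => withDensity_absolutelyContinuous _ _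

lemma lintegral_beta_comp (w : ℝ) {z : ℝ} (hz : 0 < z) (f : ℝ → ℝ≥0∞) (hf : Measurable f) :
    ∫⁻ v, f (v * z) ∂(betaLaw w) =
      ∫⁻ s, (Ioo 0 z).indicator (fun s => ENNReal.ofReal (w * s ^ (w - 1) * z ^ (-w)) * f s) s := by
  have hz' : z ≠ 0 := hz.ne'
  unfold betaLaw
  rw [lintegral_withDensity_eq_lintegral_mul _ (by fun_prop) (by fun_prop)]
  rw [← lintegral_indicator measurableSet_Ioo]
  have h1 : ∀ v : ℝ, (Ioo (0:ℝ) 1).indicator
      ((fun v => ENNReal.ofReal (w * v ^ (w - 1))) * fun v => f (v * z)) v
      = (Ioo 0 z).indicator (fun s => ENNReal.ofReal (w * (s / z) ^ (w - 1)) * f s) (v * z) := by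
    intro v
    by_cases hv : v ∈ Ioo (0:ℝ) 1
    · have hv' : v * z ∈ Ioo 0 z := ⟨mul_pos hv.1 hz, by nlinarith [hv.2]⟩
      rw [indicator_of_mem hv, indicator_of_mem hv']
      simp [hz']
    · have hv' : v * z ∉ Ioo 0 z := by
        intro h
        apply hv
        refine ⟨?_, ?_⟩
        · by_contra h0
          push Not at h0
          nlinarith [h.1]
        · by_contra h0
          push Not at h0
          nlinarith [h.2]
      rw [indicator_of_notMem hv, indicator_of_notMem hv']
  simp_rw [h1]
  have hmeas : Measurable fun s => (Ioo 0 z).indicator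
      (fun s => ENNReal.ofReal (w * (s / z) ^ (w - 1)) * f s) s :=
    Measurable.indicator (by fun_prop) measurableSet_Ioo
  have h2 : ∫⁻ v, (Ioo 0 z).indicator
      (fun s => ENNReal.ofReal (w * (s / z) ^ (w - 1)) * f s) (v * z)
      = ∫⁻ s, (Ioo 0 z).indicator
      (fun s => ENNReal.ofReal (w * (s / z) ^ (w - 1)) * f s) s ∂(Measure.map (· * z) volume) := by
    rw [lintegral_map hmeas (by fun_prop)]
  rw [h2, Real.map_volume_mul_right hz', lintegral_smul_measure, smul_eq_mul,
    ← lintegral_const_mul _ hmeas]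
  apply lintegral_congr
  intro s
  by_cases hs : s ∈ Ioo 0 z
  · rw [indicator_of_mem hs, indicator_of_mem hs, ← mul_assoc,
      ← ENNReal.ofReal_mul (by positivity)]
    congr 2
    rw [abs_of_pos (by positivity), Real.div_rpow hs.1.le hz.le, Real.rpow_sub_one hz',
      Real.rpow_neg hz.le]
    field_simp
  · rw [indicator_of_notMem hs, indicator_of_notMem hs, mul_zero]

/-- `G(s) = ∫_{z>s} z^{-w} dpi(z)` -/
noncomputable def Gf (w : ℝ) (pi' : Measure ℝ) (s : ℝ) : ℝ :=
  ∫ z, (Ioi s).indicator (fun z => z ^ (-w)) z ∂pi'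

noncomputable def dens (w : ℝ) (pi' : Measure ℝ) (s : ℝ) : ℝ :=
  w * s ^ (w - 1) * Gf w pi' s

lemma Gf_integrable {w : ℝ} (hw : 0 < w) (pi' : Measure ℝ) [IsProbabilityMeasure pi'] {s : ℝ}
    (hs : 0 < s) : Integrable (fun z => (Ioi s).indicator (fun z => z ^ (-w)) z) pi' := by
  apply Integrable.mono' (integrable_const (s ^ (-w)))
  · exact (Measurable.indicator (by fun_prop) measurableSet_Ioi).aestronglyMeasurable
  · refine Eventually.of_forall fun z => ?_
    by_cases hz : z ∈ Ioi s
    · rw [indicator_of_mem hz, Real.norm_eq_abs, abs_of_nonneg (Real.rpow_nonneg (hs.trans hz).le _)]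
      exact Real.rpow_le_rpow_of_nonpos hs (le_of_lt hz) (by linarith)
    · rw [indicator_of_notMem hz]
      simp only [norm_zero]
      positivity

lemma Gf_nonneg {w : ℝ} (pi' : Measure ℝ) {s : ℝ} (hs : 0 < s) : 0 ≤ Gf w pi' s := by
  apply integral_nonneg
  intro z
  by_cases hz : z ∈ Ioi s
  · simp only [indicator_of_mem hz, Pi.zero_apply]
    exact Real.rpow_nonneg (hs.trans hz).le _
  · simp [indicator_of_notMem hz]

lemma Gf_le {w : ℝ} (hw : 0 < w) (pi' : Measure ℝ) [IsProbabilityMeasure pi'] {s : ℝ}
    (hs : 0 < s) : Gf w pi' s ≤ s ^ (-w) := by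
  calc Gf w pi' s ≤ ∫ _z, s ^ (-w) ∂pi' := by
        apply integral_mono (Gf_integrable hw pi' hs) (integrable_const _)
        intro z
        by_cases hz : z ∈ Ioi s
        · simp only [indicator_of_mem hz]
          exact Real.rpow_le_rpow_of_nonpos hs (le_of_lt hz) (by linarith)
        · simp only [indicator_of_notMem hz]
          positivity
    _ = s ^ (-w) := by simp

lemma Gf_measurable (w : ℝ) (pi' : Measure ℝ) [SFinite pi'] : Measurable (Gf w pi') := by
  unfold Gf
  apply StronglyMeasurable.measurable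
  apply StronglyMeasurable.integral_prod_right
  have : (Function.uncurry fun s z : ℝ => (Ioi s).indicator (fun z => z ^ (-w)) z) =
      ({p : ℝ × ℝ | p.1 < p.2}).indicator (fun p => p.2 ^ (-w)) := by
    funext p
    rcases p with ⟨s, z⟩
    simp only [Function.uncurry_apply_pair, indicator, mem_Ioi, mem_ofPred_eq]
  rw [this]
  apply Measurable.stronglyMeasurable
  apply Measurable.indicator
  · fun_prop
  · exact measurableSet_lt measurable_fst measurable_snd

lemma dens_measurable (w : ℝ) (pi' : Measure ℝ) [SFinite pi'] : Measurable (dens w pi') := by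
  unfold dens
  have := Gf_measurable w pi'
  fun_prop

lemma dens_nonneg {w : ℝ} (hw : 0 < w) (pi' : Measure ℝ) {s : ℝ} (hs : 0 < s) :
    0 ≤ dens w pi' s := by
  unfold dens
  have := Gf_nonneg (w := w) pi' hs
  positivity

lemma mul_dens_le {w : ℝ} (hw : 0 < w) (pi' : Measure ℝ) [IsProbabilityMeasure pi'] {s : ℝ}
    (hs : 0 < s) : s * dens w pi' s ≤ w := by
  unfold dens
  have h := Gf_le hw pi' hs
  have h1 : s ^ (w - 1) * s = s ^ w := by
    rw [Real.rpow_sub_one hs.ne']; field_simp
  have h2 : s ^ w * s ^ (-w) = 1 := by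
    rw [← Real.rpow_add hs]; simp
  calc s * (w * s ^ (w - 1) * Gf w pi' s) = w * (s ^ (w - 1) * s) * Gf w pi' s := by ring
    _ ≤ w * (s ^ (w - 1) * s) * s ^ (-w) := by
        apply mul_le_mul_of_nonneg_left h; positivity
    _ = w := by rw [h1, mul_assoc, h2, mul_one]

lemma Gf_continuousOn {w : ℝ} (hw : 0 < w) (pi' : Measure ℝ) [IsProbabilityMeasure pi']
    (hat : ∀ x : ℝ, pi' {x} = 0) : ContinuousOn (Gf w pi') (Ioi 0) := by
  intro s hs
  apply ContinuousAt.continuousWithinAt
  have hs : 0 < s := hs
  unfold Gf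
  apply continuousAt_of_dominated (bound := fun _ => (s / 2) ^ (-w))
  · exact Eventually.of_forall fun t =>
      (Measurable.indicator (by fun_prop) measurableSet_Ioi).aestronglyMeasurable
  · have : ∀ᶠ t in 𝓝 s, s / 2 < t := lt_mem_nhds (by linarith)
    filter_upwards [this] with t ht
    refine Eventually.of_forall fun z => ?_
    by_cases hz : z ∈ Ioi t
    · have hz' : t < z := hz
      rw [indicator_of_mem hz, Real.norm_eq_abs,
        abs_of_nonneg (Real.rpow_nonneg (by linarith) _)]
      exact Real.rpow_le_rpow_of_nonpos (by linarith) (by linarith) (by linarith)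
    · rw [indicator_of_notMem hz]
      simp only [norm_zero]
      positivity
  · exact integrable_const _
  · have h0 : ∀ᵐ z ∂pi', z ≠ s := by
      rw [ae_iff]
      simpa using hat s
    filter_upwards [h0] with z hz
    rcases lt_or_gt_of_ne hz with h | h
    · have : (fun t : ℝ => (Ioi t).indicator (fun z : ℝ => z ^ (-w)) z) =ᶠ[𝓝 s] fun _ => 0 := by
        filter_upwards [lt_mem_nhds h] with t ht
        exact indicator_of_notMem (by simp only [mem_Ioi, not_lt]; exact ht.le) _
      exact (continuousAt_const).congr this.symm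
    · have : (fun t : ℝ => (Ioi t).indicator (fun z : ℝ => z ^ (-w)) z) =ᶠ[𝓝 s]
          fun _ => z ^ (-w) := by
        filter_upwards [gt_mem_nhds h] with t ht
        exact indicator_of_mem (by simpa using ht) _
      exact (continuousAt_const).congr this.symm

lemma dens_continuousOn {w : ℝ} (hw : 0 < w) (pi' : Measure ℝ) [IsProbabilityMeasure pi']
    (hat : ∀ x : ℝ, pi' {x} = 0) : ContinuousOn (dens w pi') (Ioi 0) := by
  unfold dens
  refine ContinuousOn.mul (ContinuousOn.mul continuousOn_const ?_) (Gf_continuousOn hw pi' hat)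
  intro x hx
  exact (Real.continuousAt_rpow_const x (w - 1) (Or.inl (ne_of_gt hx))).continuousWithinAt

/-- change of variables: integrals against the law of `V Z`. -/
lemma lintegral_map_mul {w : ℝ} (hw : 0 < w) (pi' : Measure ℝ) [IsProbabilityMeasure pi']
    (hpos : pi' (Iic 0) = 0) (f : ℝ → ℝ≥0∞) (hf : Measurable f) :
    ∫⁻ x, f x ∂(((betaLaw w).prod pi').map (fun p => p.1 * p.2)) =
      ∫⁻ s in Ioi 0, ENNReal.ofReal (dens w pi' s) * f s := by
  rw [lintegral_map hf (by fun_prop), lintegral_prod_symm _ (by fun_prop)]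
  have hpos' : ∀ᵐ z ∂pi', 0 < z := by
    rw [ae_iff]
    simpa [Iic] using hpos
  have h1 : ∫⁻ z, ∫⁻ v, f (v * z) ∂(betaLaw w) ∂pi' =
      ∫⁻ z, (∫⁻ s, (Ioo 0 z).indicator
        (fun s => ENNReal.ofReal (w * s ^ (w - 1) * z ^ (-w)) * f s) s) ∂pi' := by
    apply lintegral_congr_ae
    filter_upwards [hpos'] with z hz
    exact lintegral_beta_comp w hz f hf
  rw [h1, lintegral_lintegral_swap]
  · rw [← lintegral_indicator measurableSet_Ioi]
    apply lintegral_congr
    intro s
    by_cases hs : s ∈ Ioi (0:ℝ)
    · rw [indicator_of_mem hs]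
      have hs' : (0:ℝ) < s := hs
      have h2 : ∀ z : ℝ, (Ioo 0 z).indicator
          (fun s => ENNReal.ofReal (w * s ^ (w - 1) * z ^ (-w)) * f s) s
          = ENNReal.ofReal (w * s ^ (w - 1) * (Ioi s).indicator (fun z => z ^ (-w)) z) * f s := by
        intro z
        by_cases hz : z ∈ Ioi s
        · have hz' : s < z := hz
          rw [indicator_of_mem (show s ∈ Ioo 0 z from ⟨hs', hz'⟩), indicator_of_mem hz]
        · have hz' : z ≤ s := by simpa using hz
          rw [indicator_of_notMem (show s ∉ Ioo 0 z from fun h => absurd h.2 (not_lt.2 hz')),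
            indicator_of_notMem hz]
          simp
      simp_rw [h2]
      rw [lintegral_mul_const]
      · congr 1
        unfold dens Gf
        rw [← integral_const_mul, ofReal_integral_eq_lintegral_ofReal]
        · exact (Gf_integrable hw pi' hs').const_mul _
        · refine Eventually.of_forall fun z => ?_
          by_cases hz : z ∈ Ioi s
          · simp only [indicator_of_mem hz, Pi.zero_apply]
            have : (0:ℝ) < z := hs'.trans hz
            positivity
          · simp [indicator_of_notMem hz]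
      · apply Measurable.ennreal_ofReal
        apply Measurable.const_mul
        exact Measurable.indicator (by fun_prop) measurableSet_Ioi
    · rw [indicator_of_notMem hs]
      have hs' : ¬ (0:ℝ) < s := hs
      have : ∀ z : ℝ, (Ioo 0 z).indicator
          (fun s => ENNReal.ofReal (w * s ^ (w - 1) * z ^ (-w)) * f s) s = 0 := by
        intro z
        exact indicator_of_notMem (fun h => hs' h.1) _
      simp [this]
  · apply Measurable.aemeasurable
    have : (Function.uncurry fun z s : ℝ => (Ioo 0 z).indicator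
        (fun s => ENNReal.ofReal (w * s ^ (w - 1) * z ^ (-w)) * f s) s) =
        ({p : ℝ × ℝ | 0 < p.2 ∧ p.2 < p.1}).indicator
        (fun p => ENNReal.ofReal (w * p.2 ^ (w - 1) * p.1 ^ (-w)) * f p.2) := by
      funext p
      rcases p with ⟨z, s⟩
      simp only [Function.uncurry_apply_pair, indicator, mem_Ioo, mem_ofPred_eq]
    rw [this]
    apply Measurable.indicator
    · fun_prop
    · exact (measurableSet_lt measurable_const measurable_snd).inter
        (measurableSet_lt measurable_snd measurable_fst)

end Pool.Agent.X19.PB
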