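import Mathlib
import Pool.Agent.X19.PB.Dens

open MeasureTheory Set Filter Topology ProbabilityTheory
open scoped ENNReal

namespace Pool.Agent.X19.PB

section
variable {w : ℝ} {psi : ℕ → ℝ} {mu : Measure ℝ}

lemma ae_pos (hmu : IsSolution w psi mu) : ∀ᵐ x ∂mu, 0 < x := by
  rw [ae_iff]
  have := hmu.pos
  simpa [Iic] using this

lemma moment_pos (hmu : IsSolution w psi mu) {k : ℕ} (hk : 0 < psi k) :
    0 < ∫ y, y ^ k ∂mu := by
  have := hmu.prob
  rw [integral_pos_iff_support_of_nonneg_ae _ (hmu.moment k hk)]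
  · have h1 : mu (Ioi 0) ≤ mu (Function.support fun y : ℝ => y ^ k) := by
      apply measure_mono
      intro y hy
      have hy' : (0:ℝ) < y := hy
      simp only [Function.mem_support]
      positivity
    have h2 : mu (Ioi 0) = 1 := by
      have h3 : mu (Ioi 0)ᶜ = 0 := by
        rw [compl_Ioi]; exact hmu.pos
      have h4 := prob_compl_eq_zero_iff (μ := mu) (measurableSet_Ioi (a := (0:ℝ)))
      exact h4.1 h3
    rw [h2] at h1
    exact lt_of_lt_of_le zero_lt_one h1
  · filter_upwards [ae_pos hmu] with y hy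
    simp only [Pi.zero_apply]
    positivity

lemma lintegral_powerBias (mu : Measure ℝ) (f : ℝ → ℝ≥0∞) (hf : Measurable f) :
    ∫⁻ x, f x ∂(powerBias psi mu) =
      ∑' k, ∫⁻ x, ENNReal.ofReal (psi k * x ^ k / ∫ y, y ^ k ∂mu) * f x ∂mu := by
  unfold powerBias
  rw [lintegral_sum_measure]
  congr 1
  funext k
  rw [lintegral_withDensity_eq_lintegral_mul _ (by fun_prop) hf]
  rfl

lemma lintegral_bias_term (hnn : ∀ k, 0 ≤ psi k) (hmu : IsSolution w psi mu) (k : ℕ) :
    ∫⁻ x, ENNReal.ofReal (psi k * x ^ k / ∫ y, y ^ k ∂mu) ∂mu = ENNReal.ofReal (psi k) := by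
  rcases (hnn k).eq_or_lt with h | h
  · simp [← h]
  · have hM := moment_pos hmu h
    rw [← ofReal_integral_eq_lintegral_ofReal]
    · congr 1
      have : ∀ x : ℝ, psi k * x ^ k / ∫ y, y ^ k ∂mu = (psi k / ∫ y, y ^ k ∂mu) * x ^ k := by
        intro x; ring
      simp_rw [this]
      rw [integral_const_mul]
      field_simp
    · have : ∀ x : ℝ, psi k * x ^ k / ∫ y, y ^ k ∂mu = (psi k / ∫ y, y ^ k ∂mu) * x ^ k := by
        intro x; ring
      simp_rw [this]
      exact (hmu.moment k h).const_mul _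
    · filter_upwards [ae_pos hmu] with x hx
      simp only [Pi.zero_apply]
      positivity

lemma powerBias_prob (hnn : ∀ k, 0 ≤ psi k) (hsum : HasSum psi 1) (hmu : IsSolution w psi mu) :
    IsProbabilityMeasure (powerBias psi mu) := by
  constructor
  have h := lintegral_powerBias (psi := psi) mu (fun _ => 1) measurable_const
  rw [lintegral_one] at h
  rw [h]
  simp_rw [mul_one, lintegral_bias_term hnn hmu]
  rw [← ENNReal.ofReal_tsum_of_nonneg hnn hsum.summable, hsum.tsum_eq]
  simp

lemma powerBias_pos (hmu : IsSolution w psi mu) : powerBias psi mu (Iic 0) = 0 :=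
  powerBias_ac psi mu hmu.pos

/-- the density of a solution. -/
noncomputable def pden (w : ℝ) (psi : ℕ → ℝ) (mu : Measure ℝ) : ℝ → ℝ :=
  dens w (powerBias psi mu)

lemma lintegral_sol (hw : 0 < w) (hnn : ∀ k, 0 ≤ psi k) (hsum : HasSum psi 1)
    (hmu : IsSolution w psi mu) (f : ℝ → ℝ≥0∞) (hf : Measurable f) :
    ∫⁻ x, f x ∂mu = ∫⁻ s in Ioi 0, ENNReal.ofReal (pden w psi mu s) * f s := by
  have := powerBias_prob hnn hsum hmu
  have h := lintegral_map_mul hw (powerBias psi mu) (powerBias_pos hmu) f hf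
  rw [hmu.fixed] at h
  exact h

lemma sol_eq_withDensity (hw : 0 < w) (hnn : ∀ k, 0 ≤ psi k) (hsum : HasSum psi 1)
    (hmu : IsSolution w psi mu) :
    mu = (volume.restrict (Ioi 0)).withDensity fun s => ENNReal.ofReal (pden w psi mu s) := by
  ext s hs
  rw [withDensity_apply _ hs, ← lintegral_indicator hs]
  have h := lintegral_sol hw hnn hsum hmu (s.indicator 1) (measurable_one.indicator hs)
  rw [lintegral_indicator_one hs] at h
  rw [h]
  apply lintegral_congr
  intro x
  by_cases hx : x ∈ s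
  · simp [indicator_of_mem hx]
  · simp [indicator_of_notMem hx]

lemma sol_atomless (hw : 0 < w) (hnn : ∀ k, 0 ≤ psi k) (hsum : HasSum psi 1)
    (hmu : IsSolution w psi mu) (x : ℝ) : mu {x} = 0 := by
  have h : mu ≪ volume := by
    rw [sol_eq_withDensity hw hnn hsum hmu]
    exact (withDensity_absolutelyContinuous _ _).trans Measure.restrict_le_self.absolutelyContinuous
  exact h (by simp)

lemma pden_continuousOn (hw : 0 < w) (hnn : ∀ k, 0 ≤ psi k) (hsum : HasSum psi 1)
    (hmu : IsSolution w psi mu) : ContinuousOn (pden w psi mu) (Ioi 0) := by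
  have := powerBias_prob hnn hsum hmu
  exact dens_continuousOn hw _ fun x => powerBias_ac psi mu (sol_atomless hw hnn hsum hmu x)

lemma pden_nonneg (hw : 0 < w) {x : ℝ} (hx : 0 < x) : 0 ≤ pden w psi mu x :=
  dens_nonneg hw _ hx

lemma mul_pden_le (hw : 0 < w) (hnn : ∀ k, 0 ≤ psi k) (hsum : HasSum psi 1)
    (hmu : IsSolution w psi mu) {x : ℝ} (hx : 0 < x) : x * pden w psi mu x ≤ w := by
  have := powerBias_prob hnn hsum hmu
  exact mul_dens_le hw _ hx

lemma pden_aem (hw : 0 < w) (hnn : ∀ k, 0 ≤ psi k) (hsum : HasSum psi 1)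
    (hmu : IsSolution w psi mu) :
    AEMeasurable (pden w psi mu) (volume.restrict (Ioi 0)) :=
  (pden_continuousOn hw hnn hsum hmu).aemeasurable measurableSet_Ioi

lemma pden_integrableOn (hw : 0 < w) (hnn : ∀ k, 0 ≤ psi k) (hsum : HasSum psi 1)
    (hmu : IsSolution w psi mu) : IntegrableOn (pden w psi mu) (Ioi 0) := by
  have := hmu.prob
  refine ⟨(pden_aem hw hnn hsum hmu).aestronglyMeasurable, ?_⟩
  rw [hasFiniteIntegral_iff_ofReal]
  · have h := lintegral_sol hw hnn hsum hmu (fun _ => 1) measurable_const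
    simp only [lintegral_one, measure_univ, mul_one] at h
    rw [← h]
    simp
  · filter_upwards [ae_restrict_mem measurableSet_Ioi] with x hx
    exact pden_nonneg hw hx

/-- integrals against a solution in terms of the density. -/
lemma integral_sol (hw : 0 < w) (hnn : ∀ k, 0 ≤ psi k) (hsum : HasSum psi 1)
    (hmu : IsSolution w psi mu) (f : ℝ → ℝ) :
    ∫ x, f x ∂mu = ∫ x in Ioi 0, pden w psi mu x * f x := by
  conv_lhs => rw [sol_eq_withDensity hw hnn hsum hmu]
  rw [integral_withDensity_eq_integral_toReal_smul₀ (pden_aem hw hnn hsum hmu).ennreal_ofReal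
    (Eventually.of_forall fun _ => ENNReal.ofReal_lt_top)]
  apply setIntegral_congr_fun measurableSet_Ioi
  intro x hx
  simp only [smul_eq_mul]
  rw [ENNReal.toReal_ofReal (pden_nonneg hw hx)]

lemma integrable_sol (hw : 0 < w) (hnn : ∀ k, 0 ≤ psi k) (hsum : HasSum psi 1)
    (hmu : IsSolution w psi mu) (f : ℝ → ℝ) (hf : Integrable f mu) :
    IntegrableOn (fun x => pden w psi mu x * f x) (Ioi 0) := by
  rw [sol_eq_withDensity hw hnn hsum hmu] at hf
  rw [integrable_withDensity_iff_integrable_smul₀' (pden_aem hw hnn hsum hmu).ennreal_ofReal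
    (Eventually.of_forall fun _ => ENNReal.ofReal_lt_top)] at hf
  apply IntegrableOn.congr_fun hf _ measurableSet_Ioi
  intro x hx
  simp only [smul_eq_mul]
  rw [ENNReal.toReal_ofReal (pden_nonneg hw hx)]

lemma cdf_zero (hmu : IsSolution w psi mu) {x : ℝ} (hx : x ≤ 0) : cdf mu x = 0 := by
  have := hmu.prob
  rw [cdf_eq_real, Measure.real]
  have : mu (Iic x) = 0 := measure_mono_null (Iic_subset_Iic.2 hx) hmu.pos
  simp [this]

lemma cdf_eq_integral (hw : 0 < w) (hnn : ∀ k, 0 ≤ psi k) (hsum : HasSum psi 1)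
    (hmu : IsSolution w psi mu) {x : ℝ} (hx : 0 ≤ x) :
    cdf mu x = ∫ s in (0:ℝ)..x, pden w psi mu s := by
  have := hmu.prob
  rw [cdf_eq_real, intervalIntegral.integral_of_le hx]
  have h := integral_sol hw hnn hsum hmu ((Iic x).indicator 1)
  rw [integral_indicator_one measurableSet_Iic] at h
  rw [h]
  have h2 : ∀ s, pden w psi mu s * (Iic x).indicator 1 s = (Iic x).indicator (pden w psi mu) s := by
    intro s
    by_cases hs : s ∈ Iic x
    · simp [indicator_of_mem hs]
    · simp [indicator_of_notMem hs]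
  simp_rw [h2]
  rw [setIntegral_indicator measurableSet_Iic]
  congr 2

lemma cdf_hasDerivAt (hw : 0 < w) (hnn : ∀ k, 0 ≤ psi k) (hsum : HasSum psi 1)
    (hmu : IsSolution w psi mu) {x : ℝ} (hx : 0 < x) :
    HasDerivAt (fun t => cdf mu t) (pden w psi mu x) x := by
  have hc := (pden_continuousOn hw hnn hsum hmu)
  have h := intervalIntegral.integral_hasDerivAt_right (f := pden w psi mu) (a := 0) (b := x)
    (by
      rw [intervalIntegrable_iff_integrableOn_Ioc_of_le hx.le]
      exact (pden_integrableOn hw hnn hsum hmu).mono_set Ioc_subset_Ioi_self)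
    (hc.stronglyMeasurableAtFilter isOpen_Ioi x hx)
    (hc.continuousAt (Ioi_mem_nhds hx))
  apply h.congr_of_eventuallyEq
  filter_upwards [Ioi_mem_nhds hx] with t ht
  exact cdf_eq_integral hw hnn hsum hmu (le_of_lt ht)

end

end Pool.Agent.X19.PB
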