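import Mathlib
import Pool.Agent.X19.PB.Sol

open MeasureTheory Set Filter Topology ProbabilityTheory
open scoped ENNReal

namespace Pool.Agent.X19.PB

section
variable {w : ℝ} {psi : ℕ → ℝ} {mu : Measure ℝ}

lemma integral_beta_stein (hw : 0 < w) {z : ℝ} (hz : 0 < z) (h h' : ℝ → ℝ)
    (hm' : Measurable h') (hd : ∀ x, 0 < x → HasDerivAt h (h' x) x) (C : ℝ)
    (hC : ∀ x, |h x| ≤ C) (hC' : ∀ x, 0 < x → |x * h' x| ≤ C) (hm : Measurable h) :
    ∫ v, (h (v * z) + (v * z) / w * h' (v * z)) ∂(betaLaw w) = h z := by
  have hC0 : 0 ≤ C := (abs_nonneg _).trans (hC 0)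
  unfold betaLaw
  rw [integral_withDensity_eq_integral_toReal_smul₀ (by fun_prop)
    (Eventually.of_forall fun _ => ENNReal.ofReal_lt_top)]
  have h1 : ∫ v in Ioo (0:ℝ) 1, (ENNReal.ofReal (w * v ^ (w - 1))).toReal •
      (h (v * z) + (v * z) / w * h' (v * z)) =
      ∫ v in Ioo (0:ℝ) 1, (w * v ^ (w - 1) * h (v * z) + v ^ w * (h' (v * z) * z)) := by
    apply setIntegral_congr_fun measurableSet_Ioo
    intro v hv
    have hv0 : 0 < v := hv.1
    simp only [smul_eq_mul]
    rw [ENNReal.toReal_ofReal (by positivity), Real.rpow_sub_one hv0.ne']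
    field_simp
  rw [h1, ← integral_Ioc_eq_integral_Ioo, ← intervalIntegral.integral_of_le zero_le_one]
  have hFTC := intervalIntegral.integral_eq_sub_of_hasDerivAt_of_le (a := 0) (b := 1)
    (f := fun v => v ^ w * h (v * z))
    (f' := fun v => w * v ^ (w - 1) * h (v * z) + v ^ w * (h' (v * z) * z)) zero_le_one ?_ ?_ ?_
  · rw [hFTC]
    simp [Real.zero_rpow hw.ne']
  · -- continuity on Icc 0 1
    intro v hv
    rcases hv.1.eq_or_lt with h0 | h0
    · subst h0
      apply ContinuousAt.continuousWithinAt
      unfold ContinuousAt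
      simp only [Real.zero_rpow hw.ne', zero_mul]
      apply squeeze_zero_norm (a := fun v : ℝ => |v ^ w| * C)
      · intro v
        rw [norm_mul, Real.norm_eq_abs, Real.norm_eq_abs]
        exact mul_le_mul_of_nonneg_left (hC _) (abs_nonneg _)
      · have : Tendsto (fun v : ℝ => |v ^ w| * C) (𝓝 0) (𝓝 (|(0:ℝ) ^ w| * C)) := by
          apply Tendsto.mul_const
          exact ((Real.continuousAt_rpow_const 0 w (Or.inr hw.le)).abs)
        simpa [Real.zero_rpow hw.ne'] using this
    · apply ContinuousAt.continuousWithinAt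
      apply ContinuousAt.mul
      · exact Real.continuousAt_rpow_const v w (Or.inl h0.ne')
      · have hvz : 0 < v * z := by positivity
        exact ContinuousAt.comp (f := fun v => v * z) (hd (v * z) hvz).continuousAt
          (by fun_prop)
  · intro v hv
    have hvz : 0 < v * z := mul_pos hv.1 hz
    have e1 := Real.hasDerivAt_rpow_const (x := v) (p := w) (Or.inl hv.1.ne')
    have e2 : HasDerivAt (fun v => h (v * z)) (h' (v * z) * z) v := by
      have e3 : HasDerivAt (fun v : ℝ => v * z) z v := by
        simpa using (hasDerivAt_id v).mul_const z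
      exact (hd (v * z) hvz).comp v e3
    exact e1.mul e2
  · have hb : IntervalIntegrable (fun v : ℝ => (w * C + C) * v ^ (w - 1)) volume 0 1 :=
      (intervalIntegral.intervalIntegrable_rpow' (by linarith)).const_mul _
    apply hb.mono_fun'
    · apply Measurable.aestronglyMeasurable
      fun_prop
    · rw [uIoc_of_le zero_le_one]
      filter_upwards [ae_restrict_mem measurableSet_Ioc] with v hv
      have hv0 : 0 < v := hv.1
      have hvz : 0 < v * z := by positivity
      rw [Real.norm_eq_abs]
      have e1 : v ^ w = v ^ (w - 1) * v := by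
        rw [Real.rpow_sub_one hv0.ne']; field_simp
      have e2 : w * v ^ (w - 1) * h (v * z) + v ^ w * (h' (v * z) * z) =
          v ^ (w - 1) * (w * h (v * z) + (v * z) * h' (v * z)) := by
        rw [e1]; ring
      rw [e2, abs_mul, abs_of_nonneg (by positivity : 0 ≤ v ^ (w - 1)), mul_comm]
      apply mul_le_mul_of_nonneg_right _ (by positivity)
      calc |w * h (v * z) + (v * z) * h' (v * z)| ≤ |w * h (v * z)| + |(v * z) * h' (v * z)| :=
            abs_add_le _ _
        _ ≤ w * C + C := by
            rw [abs_mul, abs_of_pos hw]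
            exact add_le_add (mul_le_mul_of_nonneg_left (hC _) hw.le) (hC' _ hvz)

lemma stein_integrable (hw : 0 < w) (hmu : IsSolution w psi mu) (h h' : ℝ → ℝ)
    (hm' : Measurable h') (C : ℝ)
    (hC : ∀ x, |h x| ≤ C) (hC' : ∀ x, 0 < x → |x * h' x| ≤ C) (hm : Measurable h) :
    Integrable (fun x => h x + x / w * h' x) mu := by
  have := hmu.prob
  apply Integrable.mono' (integrable_const (C + C / w))
  · apply Measurable.aestronglyMeasurable
    fun_prop
  · filter_upwards [ae_pos hmu] with x hx
    rw [Real.norm_eq_abs]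
    calc |h x + x / w * h' x| ≤ |h x| + |x / w * h' x| := abs_add_le _ _
      _ ≤ C + C / w := by
        apply add_le_add (hC x)
        have : x / w * h' x = (x * h' x) / w := by ring
        rw [this, abs_div, abs_of_pos hw]
        exact div_le_div_of_nonneg_right (hC' x hx) hw.le

lemma stein (hw : 0 < w)
    (hmu : IsSolution w psi mu) (h h' : ℝ → ℝ)
    (hm' : Measurable h') (hd : ∀ x, 0 < x → HasDerivAt h (h' x) x) (C : ℝ)
    (hC : ∀ x, |h x| ≤ C) (hC' : ∀ x, 0 < x → |x * h' x| ≤ C) (hm : Measurable h) :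
    ∫ x, h x ∂(powerBias psi mu) = ∫ x, (h x + x / w * h' x) ∂mu := by
  have := hmu.prob
  have hfix := hmu.fixed
  have hint := stein_integrable hw hmu h h' hm' C hC hC' hm
  have hpp : ∀ᵐ z ∂(powerBias psi mu), 0 < z := by
    rw [ae_iff]
    have := powerBias_pos hmu
    simpa [Iic] using this
  have e1 : ∫ x, (h x + x / w * h' x) ∂mu =
      ∫ p, (h (p.1 * p.2) + (p.1 * p.2) / w * h' (p.1 * p.2))
        ∂((betaLaw w).prod (powerBias psi mu)) := by
    conv_lhs => rw [← hfix]
    rw [integral_map (by fun_prop) (Measurable.aestronglyMeasurable (by fun_prop))]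
  have hint2 : Integrable (fun p : ℝ × ℝ => h (p.1 * p.2) + (p.1 * p.2) / w * h' (p.1 * p.2))
      ((betaLaw w).prod (powerBias psi mu)) := by
    have h3 : Integrable (fun x => h x + x / w * h' x)
        (((betaLaw w).prod (powerBias psi mu)).map (fun p => p.1 * p.2)) := by
      rw [hfix]; exact hint
    rw [integrable_map_measure (Measurable.aestronglyMeasurable (by fun_prop))
      (by fun_prop)] at h3
    exact h3
  rw [e1, integral_prod_symm _ hint2]
  apply integral_congr_ae
  filter_upwards [hpp] with z hz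
  exact (integral_beta_stein hw hz h h' hm' hd C hC hC' hm).symm

end

end Pool.Agent.X19.PB
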