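import Mathlib

open MeasureTheory Set Filter Topology

namespace Pool.Agent.X19.PB

noncomputable def qf (h : ℝ) : ℝ := (max h 0) ^ 2

lemma qf_nonneg (h : ℝ) : 0 ≤ qf h := sq_nonneg _

lemma qf_hasDerivAt (h : ℝ) : HasDerivAt qf (2 * max h 0) h := by
  rcases lt_trichotomy h 0 with hh | hh | hh
  · have : qf =ᶠ[𝓝 h] fun _ => 0 := by
      filter_upwards [gt_mem_nhds hh] with t ht
      simp [qf, max_eq_right ht.le]
    rw [max_eq_right hh.le, mul_zero]
    exact (hasDerivAt_const h (0:ℝ)).congr_of_eventuallyEq this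
  · subst hh
    rw [max_self, mul_zero, hasDerivAt_iff_isLittleO_nhds_zero]
    simp only [zero_add, smul_zero, sub_zero]
    have h1 : (fun t : ℝ => qf t - qf 0) = fun t => qf t := by
      funext t; simp [qf]
    rw [h1]
    have h2 : (fun t : ℝ => qf t) =O[𝓝 0] fun t => t ^ 2 := by
      apply Asymptotics.IsBigO.of_bound 1
      refine Eventually.of_forall fun t => ?_
      rw [Real.norm_eq_abs, Real.norm_eq_abs, abs_of_nonneg (qf_nonneg t), one_mul,
        abs_of_nonneg (sq_nonneg t)]
      unfold qf
      rcases le_total t 0 with ht | ht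
      · rw [max_eq_right ht, zero_pow two_ne_zero]; exact sq_nonneg t
      · rw [max_eq_left ht]
    have h3 : (fun t : ℝ => t ^ 2) =o[𝓝 0] fun t => t := by
      have := Asymptotics.isLittleO_pow_id (𝕜 := ℝ) (n := 2) (by norm_num)
      simpa using this
    exact h2.trans_isLittleO h3
  · have : qf =ᶠ[𝓝 h] fun t => t ^ 2 := by
      filter_upwards [lt_mem_nhds hh] with t ht
      simp [qf, max_eq_left ht.le]
    rw [max_eq_left hh.le]
    have e := (hasDerivAt_pow 2 h)
    simp only [Nat.cast_ofNat, Nat.add_one_sub_one, pow_one] at e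
    exact e.congr_of_eventuallyEq this

/-- smooth approximations of the indicator of `(0,∞)` -/
noncomputable def th (n : ℕ) (h : ℝ) : ℝ := n * qf h / (1 + n * qf h)

noncomputable def th' (n : ℕ) (h : ℝ) : ℝ := n * (2 * max h 0) / (1 + n * qf h) ^ 2

lemma th_den_pos (n : ℕ) (h : ℝ) : 0 < 1 + n * qf h := by
  have := qf_nonneg h
  positivity

lemma th_hasDerivAt (n : ℕ) (h : ℝ) : HasDerivAt (th n) (th' n h) h := by
  have h1 : HasDerivAt (fun h => n * qf h) (n * (2 * max h 0)) h := (qf_hasDerivAt h).const_mul _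
  have h2 : HasDerivAt (fun h => 1 + n * qf h) (n * (2 * max h 0)) h := by
    simpa using h1.const_add 1
  have h3 := h1.div h2 (th_den_pos n h).ne'
  have e : th' n h = (n * (2 * max h 0) * (1 + n * qf h) - n * qf h * (n * (2 * max h 0))) /
      (1 + n * qf h) ^ 2 := by
    unfold th'
    congr 1
    ring
  rw [e]
  exact h3

lemma th_nonneg (n : ℕ) (h : ℝ) : 0 ≤ th n h := by
  have := qf_nonneg h
  unfold th
  positivity

lemma th_le_one (n : ℕ) (h : ℝ) : th n h ≤ 1 := by
  unfold th
  rw [div_le_one (th_den_pos n h)]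
  linarith

lemma th'_nonneg (n : ℕ) (h : ℝ) : 0 ≤ th' n h := by
  unfold th'
  have := le_max_right h 0
  positivity

lemma th'_le (n : ℕ) {h : ℝ} (hh : h ≤ 1) : th' n h ≤ 2 * n := by
  unfold th'
  have h0 := le_max_right h 0
  have h1 : max h 0 ≤ 1 := max_le hh zero_le_one
  have h2 : 1 ≤ (1 + n * qf h) ^ 2 := by
    have := qf_nonneg h
    have : 1 ≤ 1 + n * qf h := by
      have : (0:ℝ) ≤ n * qf h := by positivity
      linarith
    nlinarith
  calc n * (2 * max h 0) / (1 + n * qf h) ^ 2 ≤ n * (2 * max h 0) := by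
        apply div_le_self _ h2; positivity
    _ ≤ n * (2 * 1) := by gcongr
    _ = 2 * n := by ring

lemma th_continuous (n : ℕ) : Continuous (th n) :=
  continuous_iff_continuousAt.2 fun h => (th_hasDerivAt n h).continuousAt

lemma qf_continuous : Continuous qf :=
  continuous_iff_continuousAt.2 fun h => (qf_hasDerivAt h).continuousAt

lemma th'_continuous (n : ℕ) : Continuous (th' n) := by
  unfold th'
  apply Continuous.div
  · fun_prop
  · have := qf_continuous
    fun_prop
  · intro h
    exact pow_ne_zero _ (th_den_pos n h).ne'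

noncomputable def ind (h : ℝ) : ℝ := if 0 < h then 1 else 0

lemma th_tendsto (h : ℝ) : Tendsto (fun n : ℕ => th n h) atTop (𝓝 (ind h)) := by
  unfold ind
  split_ifs with hh
  · have hq : 0 < qf h := by
      unfold qf; rw [max_eq_left hh.le]; positivity
    have h1 : Tendsto (fun n : ℕ => 1 + (n:ℝ) * qf h) atTop atTop :=
      tendsto_atTop_add_const_left _ _
        (tendsto_natCast_atTop_atTop.atTop_mul_const hq)
    have h2 : Tendsto (fun n : ℕ => 1 - (1 + (n:ℝ) * qf h)⁻¹) atTop (𝓝 (1 - 0)) :=
      tendsto_const_nhds.sub (tendsto_inv_atTop_zero.comp h1)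
    rw [sub_zero] at h2
    apply h2.congr
    intro n
    have := (th_den_pos n h).ne'
    unfold th
    field_simp
    ring
  · have hq : qf h = 0 := by
      unfold qf; rw [max_eq_right (not_lt.1 hh)]; simp
    simp [th, hq]

noncomputable def Th (n : ℕ) (h : ℝ) : ℝ := ∫ s in (0:ℝ)..h, th n s

lemma Th_zero (n : ℕ) : Th n 0 = 0 := by simp [Th]

lemma Th_hasDerivAt (n : ℕ) (h : ℝ) : HasDerivAt (Th n) (th n h) h :=
  intervalIntegral.integral_hasDerivAt_right ((th_continuous n).intervalIntegrable _ _)
    ((th_continuous n).stronglyMeasurableAtFilter _ _) (th_continuous n).continuousAt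

lemma Th_continuous (n : ℕ) : Continuous (Th n) :=
  continuous_iff_continuousAt.2 fun h => (Th_hasDerivAt n h).continuousAt

lemma integral_ind (h : ℝ) : ∫ s in (0:ℝ)..h, ind s = max h 0 := by
  rcases le_total h 0 with hh | hh
  · rw [max_eq_right hh, intervalIntegral.integral_of_ge hh]
    have : ∫ s in Ioc h 0, ind s = ∫ s in Ioc h 0, (0:ℝ) := by
      apply setIntegral_congr_fun measurableSet_Ioc
      intro s hs
      simp [ind, not_lt.2 hs.2]
    rw [this]; simp
  · rw [max_eq_left hh, intervalIntegral.integral_of_le hh]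
    have : ∫ s in Ioc 0 h, ind s = ∫ s in Ioc 0 h, (1:ℝ) := by
      apply setIntegral_congr_fun measurableSet_Ioc
      intro s hs
      simp [ind, hs.1]
    rw [this]; simp [hh]

lemma ind_measurable : Measurable ind := by
  unfold ind
  exact Measurable.ite measurableSet_Ioi measurable_const measurable_const

lemma Th_tendsto (h : ℝ) : Tendsto (fun n : ℕ => Th n h) atTop (𝓝 (max h 0)) := by
  rw [← integral_ind]
  unfold Th
  apply intervalIntegral.tendsto_integral_filter_of_dominated_convergence (fun _ => 1)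
  · exact Eventually.of_forall fun n => (th_continuous n).aestronglyMeasurable
  · refine Eventually.of_forall fun n => Eventually.of_forall fun s _ => ?_
    rw [Real.norm_eq_abs, abs_of_nonneg (th_nonneg n s)]
    exact th_le_one n s
  · exact intervalIntegrable_const
  · exact Eventually.of_forall fun s _ => th_tendsto s

end Pool.Agent.X19.PB
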