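import Mathlib
import Pool.Agent.X19.PB.Stein
import Pool.Agent.X19.PB.Theta

open MeasureTheory Set Filter Topology ProbabilityTheory
open scoped ENNReal

namespace Pool.Agent.X19.PB

section
variable {w : ℝ} {psi : ℕ → ℝ} {mu nu : Measure ℝ}

/-- difference of distribution functions -/
noncomputable def Hf (mu nu : Measure ℝ) (x : ℝ) : ℝ := cdf mu x - cdf nu x

noncomputable def Df (w : ℝ) (psi : ℕ → ℝ) (mu nu : Measure ℝ) (x : ℝ) : ℝ :=
  pden w psi mu x - pden w psi nu x

lemma Hf_measurable (mu nu : Measure ℝ) : Measurable (Hf mu nu) :=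
  (monotone_cdf mu).measurable.sub (monotone_cdf nu).measurable

lemma Hf_le_one (mu nu : Measure ℝ) (x : ℝ) : Hf mu nu x ≤ 1 := by
  unfold Hf
  have := cdf_le_one mu x
  have := cdf_nonneg nu x
  linarith

lemma Hf_zero (hmu : IsSolution w psi mu) (hnu : IsSolution w psi nu) {x : ℝ} (hx : x ≤ 0) :
    Hf mu nu x = 0 := by
  unfold Hf
  rw [cdf_zero hmu hx, cdf_zero hnu hx, sub_zero]

lemma Hf_hasDerivAt (hw : 0 < w) (hnn : ∀ k, 0 ≤ psi k) (hsum : HasSum psi 1)
    (hmu : IsSolution w psi mu) (hnu : IsSolution w psi nu) {x : ℝ} (hx : 0 < x) :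
    HasDerivAt (Hf mu nu) (Df w psi mu nu x) x :=
  (cdf_hasDerivAt hw hnn hsum hmu hx).sub (cdf_hasDerivAt hw hnn hsum hnu hx)

lemma Hf_contWithin (mu nu : Measure ℝ) (t : ℝ) :
    ContinuousWithinAt (Hf mu nu) (Ici t) t :=
  ((cdf mu).right_continuous t).sub ((cdf nu).right_continuous t)

lemma Hf_tendsto (mu nu : Measure ℝ) : Tendsto (Hf mu nu) atTop (𝓝 0) := by
  have h := (tendsto_cdf_atTop mu).sub (tendsto_cdf_atTop nu)
  rw [sub_self] at h
  exact h

lemma Df_measurable (hmu : IsSolution w psi mu) (hnu : IsSolution w psi nu) :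
    Measurable (Df w psi mu nu) := by
  have := hmu.prob
  have := hnu.prob
  exact (dens_measurable _ _).sub (dens_measurable _ _)

lemma Df_integrableOn (hw : 0 < w) (hnn : ∀ k, 0 ≤ psi k) (hsum : HasSum psi 1)
    (hmu : IsSolution w psi mu) (hnu : IsSolution w psi nu) :
    IntegrableOn (Df w psi mu nu) (Ioi 0) :=
  (pden_integrableOn hw hnn hsum hmu).sub (pden_integrableOn hw hnn hsum hnu)

lemma mul_Df_le (hw : 0 < w) (hnn : ∀ k, 0 ≤ psi k) (hsum : HasSum psi 1)
    (hmu : IsSolution w psi mu) (hnu : IsSolution w psi nu) {x : ℝ} (hx : 0 < x) :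
    |x * Df w psi mu nu x| ≤ w := by
  unfold Df
  have h1 := mul_pden_le hw hnn hsum hmu hx
  have h2 := mul_pden_le hw hnn hsum hnu hx
  have h3 := mul_nonneg hx.le (pden_nonneg (psi := psi) (mu := mu) hw hx)
  have h4 := mul_nonneg hx.le (pden_nonneg (psi := psi) (mu := nu) hw hx)
  rw [abs_le, mul_sub]
  constructor <;> linarith

lemma th_mul_Df_integrableOn (hw : 0 < w) (hnn : ∀ k, 0 ≤ psi k) (hsum : HasSum psi 1)
    (hmu : IsSolution w psi mu) (hnu : IsSolution w psi nu) (n : ℕ) :
    IntegrableOn (fun x => th n (Hf mu nu x) * Df w psi mu nu x) (Ioi 0) := by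
  apply Integrable.bdd_mul (Df_integrableOn hw hnn hsum hmu hnu) (c := 1)
  · exact ((th_continuous n).measurable.comp (Hf_measurable mu nu)).aestronglyMeasurable
  · refine Eventually.of_forall fun x => ?_
    rw [Real.norm_eq_abs, abs_of_nonneg (th_nonneg _ _)]
    exact th_le_one _ _

/-- fundamental theorem of calculus for `Th n (H)`. -/
lemma integral_th_Df (hw : 0 < w) (hnn : ∀ k, 0 ≤ psi k) (hsum : HasSum psi 1)
    (hmu : IsSolution w psi mu) (hnu : IsSolution w psi nu) (n : ℕ) {t : ℝ} (ht : 0 ≤ t) :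
    ∫ x in Ioi t, th n (Hf mu nu x) * Df w psi mu nu x = - Th n (Hf mu nu t) := by
  have h := integral_Ioi_of_hasDerivAt_of_tendsto (a := t) (f := fun x => Th n (Hf mu nu x))
    (f' := fun x => th n (Hf mu nu x) * Df w psi mu nu x) (m := 0) ?_ ?_ ?_ ?_
  · rw [h]; ring
  · exact (Th_continuous n).continuousAt.comp_continuousWithinAt (Hf_contWithin mu nu t)
  · intro x hx
    have hx0 : 0 < x := lt_of_le_of_lt ht hx
    exact (Th_hasDerivAt n _).comp x (Hf_hasDerivAt hw hnn hsum hmu hnu hx0)
  · exact (th_mul_Df_integrableOn hw hnn hsum hmu hnu n).mono_set (Ioi_subset_Ioi ht)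
  · have : Tendsto (fun x => Th n (Hf mu nu x)) atTop (𝓝 (Th n 0)) :=
      ((Th_continuous n).tendsto 0).comp (Hf_tendsto mu nu)
    rwa [Th_zero] at this

/-- the limit `n → ∞`. -/
lemma integral_ind_Df (hw : 0 < w) (hnn : ∀ k, 0 ≤ psi k) (hsum : HasSum psi 1)
    (hmu : IsSolution w psi mu) (hnu : IsSolution w psi nu) {t : ℝ} (ht : 0 ≤ t) :
    ∫ x in Ioi t, ind (Hf mu nu x) * Df w psi mu nu x = - max (Hf mu nu t) 0 := by
  have h1 : Tendsto (fun n : ℕ => ∫ x in Ioi t, th n (Hf mu nu x) * Df w psi mu nu x) atTop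
      (𝓝 (∫ x in Ioi t, ind (Hf mu nu x) * Df w psi mu nu x)) := by
    apply tendsto_integral_of_dominated_convergence (fun x => |Df w psi mu nu x|)
    · intro n
      apply Measurable.aestronglyMeasurable
      exact ((th_continuous n).measurable.comp (Hf_measurable mu nu)).mul (Df_measurable hmu hnu)
    · exact ((Df_integrableOn hw hnn hsum hmu hnu).mono_set (Ioi_subset_Ioi ht)).abs
    · intro n
      refine Eventually.of_forall fun x => ?_
      rw [Real.norm_eq_abs, abs_mul, abs_of_nonneg (th_nonneg _ _)]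
      exact mul_le_of_le_one_left (abs_nonneg _) (th_le_one _ _)
    · refine Eventually.of_forall fun x => ?_
      exact (th_tendsto _).mul_const _
  have h2 : Tendsto (fun n : ℕ => ∫ x in Ioi t, th n (Hf mu nu x) * Df w psi mu nu x) atTop
      (𝓝 (- max (Hf mu nu t) 0)) := by
    simp_rw [integral_th_Df hw hnn hsum hmu hnu _ ht]
    exact (Th_tendsto _).neg
  exact tendsto_nhds_unique h1 h2

/-- The smoothed inequality. -/
lemma smooth_ineq (hw : 0 < w) (hnn : ∀ k, 0 ≤ psi k) (hsum : HasSum psi 1)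
    (hmu : IsSolution w psi mu) (hnu : IsSolution w psi nu) (n : ℕ) :
    ∫ x, th n (Hf mu nu x) ∂(powerBias psi nu) ≤ ∫ x, th n (Hf mu nu x) ∂(powerBias psi mu) := by
  set h : ℝ → ℝ := fun x => th n (Hf mu nu x) with hh
  set h' : ℝ → ℝ := fun x => th' n (Hf mu nu x) * Df w psi mu nu x with hh'
  have hm : Measurable h := (th_continuous n).measurable.comp (Hf_measurable mu nu)
  have hm' : Measurable h' :=
    ((th'_continuous n).measurable.comp (Hf_measurable mu nu)).mul (Df_measurable hmu hnu)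
  have hd : ∀ x, 0 < x → HasDerivAt h (h' x) x := fun x hx =>
    (th_hasDerivAt n _).comp x (Hf_hasDerivAt hw hnn hsum hmu hnu hx)
  have hC : ∀ x, |h x| ≤ 1 + 2 * n * w := by
    intro x
    rw [abs_of_nonneg (th_nonneg _ _)]
    have : 0 ≤ 2 * (n:ℝ) * w := by positivity
    linarith [th_le_one n (Hf mu nu x)]
  have hC' : ∀ x, 0 < x → |x * h' x| ≤ 1 + 2 * n * w := by
    intro x hx
    have e : x * h' x = th' n (Hf mu nu x) * (x * Df w psi mu nu x) := by
      simp only [hh']; ring
    rw [e, abs_mul, abs_of_nonneg (th'_nonneg _ _)]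
    calc th' n (Hf mu nu x) * |x * Df w psi mu nu x| ≤ (2 * n) * w := by
          apply mul_le_mul (th'_le n (Hf_le_one _ _ _)) (mul_Df_le hw hnn hsum hmu hnu hx)
            (abs_nonneg _) (by positivity)
      _ ≤ 1 + 2 * n * w := by linarith
  rw [stein hw hmu h h' hm' hd _ hC hC' hm, stein hw hnu h h' hm' hd _ hC hC' hm,
    integral_sol hw hnn hsum hmu, integral_sol hw hnn hsum hnu]
  have i1 := integrable_sol hw hnn hsum hmu _ (stein_integrable hw hmu h h' hm' _ hC hC' hm)
  have i2 := integrable_sol hw hnn hsum hnu _ (stein_integrable hw hnu h h' hm' _ hC hC' hm)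
  rw [← sub_nonneg, ← integral_sub i1 i2]
  have i3 := th_mul_Df_integrableOn hw hnn hsum hmu hnu n
  have e0 := integral_th_Df hw hnn hsum hmu hnu n (le_refl 0)
  rw [Hf_zero hmu hnu (le_refl 0), Th_zero, neg_zero] at e0
  refine e0.symm.le.trans ?_
  apply setIntegral_mono_on i3 (i1.sub i2) measurableSet_Ioi
  intro x hx
  show _ ≤ pden w psi mu x * (h x + x / w * h' x) - pden w psi nu x * (h x + x / w * h' x)
  have hx0 : 0 < x := hx
  have e : pden w psi mu x * (h x + x / w * h' x) - pden w psi nu x * (h x + x / w * h' x) =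
      th n (Hf mu nu x) * Df w psi mu nu x +
        x / w * (th' n (Hf mu nu x) * Df w psi mu nu x ^ 2) := by
    simp only [hh, hh', Df]; ring
  rw [e]
  have : 0 ≤ x / w * (th' n (Hf mu nu x) * Df w psi mu nu x ^ 2) := by
    have := th'_nonneg n (Hf mu nu x)
    positivity
  linarith

/-- the set where `H > 0` -/
def Oset (mu nu : Measure ℝ) : Set ℝ := {x | 0 < Hf mu nu x}

lemma Oset_meas (mu nu : Measure ℝ) : MeasurableSet (Oset mu nu) :=
  measurableSet_lt measurable_const (Hf_measurable mu nu)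

lemma integral_ind_measure (m : Measure ℝ) [IsFiniteMeasure m] :
    ∫ x, ind (Hf mu nu x) ∂m = m.real (Oset mu nu) := by
  rw [← integral_indicator_one (Oset_meas mu nu)]
  apply integral_congr_ae
  refine Eventually.of_forall fun x => ?_
  by_cases hx : 0 < Hf mu nu x
  · have hx' : x ∈ Oset mu nu := hx
    simp [ind, hx, indicator_of_mem hx']
  · have hx' : x ∉ Oset mu nu := hx
    simp [ind, hx, indicator_of_notMem hx']

lemma tendsto_th_integral (m : Measure ℝ) [IsFiniteMeasure m] :
    Tendsto (fun n : ℕ => ∫ x, th n (Hf mu nu x) ∂m) atTop (𝓝 (m.real (Oset mu nu))) := by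
  rw [← integral_ind_measure (mu := mu) (nu := nu) m]
  apply tendsto_integral_of_dominated_convergence (fun _ => (1:ℝ))
  · intro n
    exact ((th_continuous n).measurable.comp (Hf_measurable mu nu)).aestronglyMeasurable
  · exact integrable_const _
  · intro n
    refine Eventually.of_forall fun x => ?_
    rw [Real.norm_eq_abs, abs_of_nonneg (th_nonneg _ _)]
    exact th_le_one _ _
  · exact Eventually.of_forall fun x => th_tendsto _

/-- inequality (2) -/
lemma bias_ineq (hw : 0 < w) (hnn : ∀ k, 0 ≤ psi k) (hsum : HasSum psi 1)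
    (hmu : IsSolution w psi mu) (hnu : IsSolution w psi nu) :
    powerBias psi nu (Oset mu nu) ≤ powerBias psi mu (Oset mu nu) := by
  have := powerBias_prob hnn hsum hmu
  have := powerBias_prob hnn hsum hnu
  have h := le_of_tendsto_of_tendsto' (tendsto_th_integral (mu := mu) (nu := nu) (powerBias psi nu))
    (tendsto_th_integral (mu := mu) (nu := nu) (powerBias psi mu))
    (smooth_ineq hw hnn hsum hmu hnu)
  rw [Measure.real, Measure.real] at h
  exact (ENNReal.toReal_le_toReal (measure_ne_top _ _) (measure_ne_top _ _)).1 h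

/-- tail identity on `O`. -/
lemma tail_O (hw : 0 < w) (hnn : ∀ k, 0 ≤ psi k) (hsum : HasSum psi 1)
    (hmu : IsSolution w psi mu) (hnu : IsSolution w psi nu) {t : ℝ} (ht : 0 ≤ t) :
    nu.real (Oset mu nu ∩ Ioi t) = mu.real (Oset mu nu ∩ Ioi t) + max (Hf mu nu t) 0 := by
  have := hmu.prob
  have := hnu.prob
  have key := integral_ind_Df hw hnn hsum hmu hnu ht
  have hS : MeasurableSet (Oset mu nu ∩ Ioi t) := (Oset_meas mu nu).inter measurableSet_Ioi
  have e : ∀ (m : Measure ℝ), IsSolution w psi m →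
      m.real (Oset mu nu ∩ Ioi t) = ∫ x in Ioi t, ind (Hf mu nu x) * pden w psi m x := by
    intro m hm
    have := hm.prob
    rw [← integral_indicator_one hS, integral_sol hw hnn hsum hm, ← integral_indicator
      measurableSet_Ioi, ← integral_indicator measurableSet_Ioi]
    apply integral_congr_ae
    refine Eventually.of_forall fun x => ?_
    by_cases hx : t < x
    · have hx0 : 0 < x := lt_of_le_of_lt ht hx
      simp only [ind, indicator, Oset, mem_ofPred_eq, Pi.one_apply, mem_Ioi, hx, hx0, mem_inter_iff,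
        and_true, if_true]
      split_ifs <;> ring
    · simp only [indicator, mem_Ioi, hx, mem_inter_iff, and_false, if_false]
      split_ifs <;> ring
  rw [e nu hnu, e mu hmu]
  have i : ∀ (m : Measure ℝ), IsSolution w psi m →
      IntegrableOn (fun x => ind (Hf mu nu x) * pden w psi m x) (Ioi t) := by
    intro m hm
    apply Integrable.bdd_mul ((pden_integrableOn hw hnn hsum hm).mono_set (Ioi_subset_Ioi ht))
      (c := 1)
    · exact (ind_measurable.comp (Hf_measurable mu nu)).aestronglyMeasurable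
    · refine Eventually.of_forall fun x => ?_
      unfold ind
      split_ifs <;> simp
  have e2 : ∫ x in Ioi t, ind (Hf mu nu x) * Df w psi mu nu x =
      (∫ x in Ioi t, ind (Hf mu nu x) * pden w psi mu x) -
        ∫ x in Ioi t, ind (Hf mu nu x) * pden w psi nu x := by
    rw [← integral_sub (i mu hmu) (i nu hnu)]
    congr 1
    funext x
    unfold Df
    ring
  rw [e2] at key
  linarith

lemma tail_real (m : Measure ℝ) [IsProbabilityMeasure m] (t : ℝ) :
    m.real (Ioi t) = 1 - cdf m t := by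
  rw [cdf_eq_real, ← compl_Iic, probReal_compl_eq_one_sub measurableSet_Iic]

/-- tail identity on the complement. -/
lemma tail_Oc (hw : 0 < w) (hnn : ∀ k, 0 ≤ psi k) (hsum : HasSum psi 1)
    (hmu : IsSolution w psi mu) (hnu : IsSolution w psi nu) {t : ℝ} (ht : 0 ≤ t) :
    mu.real ((Oset mu nu)ᶜ ∩ Ioi t) = nu.real ((Oset mu nu)ᶜ ∩ Ioi t) + max (-Hf mu nu t) 0 := by
  have := hmu.prob
  have := hnu.prob
  have h := tail_O hw hnn hsum hmu hnu ht
  have e : ∀ (m : Measure ℝ) [IsProbabilityMeasure m],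
      m.real ((Oset mu nu)ᶜ ∩ Ioi t) = 1 - cdf m t - m.real (Oset mu nu ∩ Ioi t) := by
    intro m _
    rw [← tail_real]
    have h1 := measureReal_inter_add_sdiff (μ := m) (s := Ioi t) (Oset_meas mu nu)
    have h2 : Ioi t \ Oset mu nu = (Oset mu nu)ᶜ ∩ Ioi t := by
      rw [sdiff_eq, inter_comm]
    rw [h2, inter_comm (Ioi t)] at h1
    linarith
  rw [e mu, e nu, h]
  unfold Hf
  rcases le_total (cdf mu t - cdf nu t) 0 with h0 | h0
  · rw [max_eq_right h0, max_eq_left (by linarith)]; ring
  · rw [max_eq_left h0, max_eq_right (by linarith)]; ring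

end

end Pool.Agent.X19.PB
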