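import Mathlib
import Pool.Agent.X19.PB.Compare

open MeasureTheory Set Filter Topology ProbabilityTheory
open scoped ENNReal

namespace Pool.Agent.X19.PB

lemma layer (m : Measure ℝ) (hpos : ∀ᵐ x ∂m, 0 < x) {k : ℕ} (hk : 0 < k) :
    ∫⁻ x, ENNReal.ofReal (x ^ k) ∂m =
      ∫⁻ t in Ioi 0, m (Ioi t) * ENNReal.ofReal (k * t ^ (k - 1)) := by
  have h := lintegral_comp_eq_lintegral_meas_lt_mul (μ := m) (f := fun x => x)
    (g := fun t => (k:ℝ) * t ^ (k - 1)) ?_ ?_ ?_ ?_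
  · rw [← show (∫⁻ x, ENNReal.ofReal (∫ t in (0:ℝ)..x, (k:ℝ) * t ^ (k - 1)) ∂m) =
      ∫⁻ x, ENNReal.ofReal (x ^ k) ∂m from ?_]
    · rw [h]
      rfl
    · apply lintegral_congr
      intro x
      congr 1
      rw [intervalIntegral.integral_const_mul, integral_pow]
      have hk' : k - 1 + 1 = k := Nat.sub_add_cancel hk
      have hk2 : ((k - 1 : ℕ) : ℝ) + 1 = k := by exact_mod_cast hk'
      rw [hk', hk2, zero_pow hk.ne', sub_zero]
      have : (k:ℝ) ≠ 0 := by positivity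
      field_simp
  · filter_upwards [hpos] with x hx
    exact hx.le
  · fun_prop
  · intro t _
    exact (Continuous.intervalIntegrable (by fun_prop) _ _)
  · filter_upwards [ae_restrict_mem measurableSet_Ioi] with t ht
    have : (0:ℝ) < t := ht
    positivity

lemma pos_layer (F : ℝ → ℝ) (hF : ContinuousOn F (Ioi 0)) (hm : Measurable F) {x : ℝ} (hx : 0 < x)
    (hFx : 0 < F x) {k : ℕ} (hk : 0 < k) :
    0 < ∫⁻ t in Ioi 0, ENNReal.ofReal (max (F t) 0) * ENNReal.ofReal (k * t ^ (k - 1)) := by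
  rw [pos_iff_ne_zero]
  intro h0
  rw [lintegral_eq_zero_iff (by fun_prop)] at h0
  have hopen : IsOpen (Ioi 0 ∩ F ⁻¹' Ioi 0) := hF.isOpen_inter_preimage isOpen_Ioi isOpen_Ioi
  have hne : (Ioi 0 ∩ F ⁻¹' Ioi 0).Nonempty := ⟨x, hx, hFx⟩
  have hvol := hopen.measure_pos volume hne
  apply hvol.ne'
  have h1 : ∀ᵐ t ∂(volume : Measure ℝ), t ∈ Ioi (0:ℝ) →
      ENNReal.ofReal (max (F t) 0) * ENNReal.ofReal (k * t ^ (k - 1)) = 0 :=
    (ae_restrict_iff' measurableSet_Ioi).1 h0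
  rw [ae_iff] at h1
  apply measure_mono_null _ h1
  intro t ht
  have ht0 : (0:ℝ) < t := ht.1
  have htF : 0 < F t := ht.2
  simp only [mem_ofPred_eq, Classical.not_imp, mul_eq_zero, ENNReal.ofReal_eq_zero, not_or, not_le]
  refine ⟨ht0, ?_, ?_⟩
  · exact lt_max_of_lt_left htF
  · positivity

lemma ineq_real {a b a' b' p n s : ℝ} (ha : 0 ≤ a) (hb' : 0 ≤ b') (hp : 0 < p) (hn : 0 < n)
    (e1 : a' = a + p) (e2 : b = b' + n) (hs : 0 < s) :
    s / (a + b) * a < s / (a' + b') * a' := by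
  subst e1 e2
  rw [div_mul_eq_mul_div, div_mul_eq_mul_div, div_lt_div_iff₀ (by linarith) (by linarith)]
  have h1 : a * b' < (a + p) * (b' + n) := by
    nlinarith [mul_pos hp hn, mul_nonneg ha hn.le, mul_nonneg hp.le hb']
  nlinarith

section
variable {w : ℝ} {psi : ℕ → ℝ} {mu nu : Measure ℝ}

lemma layer_restrict (hmu : IsSolution w psi mu) (S : Set ℝ) {k : ℕ}
    (hk : 0 < k) :
    ∫⁻ x in S, ENNReal.ofReal (x ^ k) ∂mu =
      ∫⁻ t in Ioi 0, ENNReal.ofReal (mu.real (S ∩ Ioi t)) * ENNReal.ofReal (k * t ^ (k - 1)) := by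
  have := hmu.prob
  rw [layer (mu.restrict S) (ae_restrict_of_ae (ae_pos hmu)) hk]
  apply lintegral_congr
  intro t
  rw [Measure.restrict_apply measurableSet_Ioi, inter_comm, ofReal_measureReal]

lemma moment_lintegral (hmu : IsSolution w psi mu) {k : ℕ} (hk : 0 < psi k) :
    ∫⁻ x, ENNReal.ofReal (x ^ k) ∂mu = ENNReal.ofReal (∫ y, y ^ k ∂mu) := by
  rw [ofReal_integral_eq_lintegral_ofReal (hmu.moment k hk)]
  filter_upwards [ae_pos hmu] with x hx
  simp only [Pi.zero_apply]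
  positivity

/-- the comparison of the `k`-biased measures of `O`. -/
lemma term_lt (hw : 0 < w) (hnn : ∀ k, 0 ≤ psi k) (hsum : HasSum psi 1)
    (hmu : IsSolution w psi mu) (hnu : IsSolution w psi nu) {x y : ℝ} (hx : 0 < x)
    (hHx : 0 < Hf mu nu x) (hy : 0 < y) (hHy : Hf mu nu y < 0) {k : ℕ} (hk : 0 < k)
    (hpk : 0 < psi k) :
    ∫⁻ x in Oset mu nu, ENNReal.ofReal (psi k * x ^ k / ∫ y, y ^ k ∂mu) ∂mu <
      ∫⁻ x in Oset mu nu, ENNReal.ofReal (psi k * x ^ k / ∫ y, y ^ k ∂nu) ∂nu := by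
  have := hmu.prob
  have := hnu.prob
  have hHc : ContinuousOn (Hf mu nu) (Ioi 0) := fun x hx =>
    (Hf_hasDerivAt hw hnn hsum hmu hnu hx).continuousAt.continuousWithinAt
  have hHm := Hf_measurable mu nu
  set A := ∫⁻ x in Oset mu nu, ENNReal.ofReal (x ^ k) ∂mu with hA
  set B := ∫⁻ x in (Oset mu nu)ᶜ, ENNReal.ofReal (x ^ k) ∂mu with hB
  set A' := ∫⁻ x in Oset mu nu, ENNReal.ofReal (x ^ k) ∂nu with hA'
  set B' := ∫⁻ x in (Oset mu nu)ᶜ, ENNReal.ofReal (x ^ k) ∂nu with hB'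
  set P := ∫⁻ t in Ioi 0, ENNReal.ofReal (max (Hf mu nu t) 0) * ENNReal.ofReal (k * t ^ (k - 1))
    with hP
  set N := ∫⁻ t in Ioi 0, ENNReal.ofReal (max (-Hf mu nu t) 0) * ENNReal.ofReal (k * t ^ (k - 1))
    with hN
  have hPpos : 0 < P := pos_layer _ hHc hHm hx hHx hk
  have hNpos : 0 < N := pos_layer (fun t => - Hf mu nu t) hHc.neg hHm.neg hy (by linarith) hk
  have eA : A' = A + P := by
    rw [hA, hA', hP, layer_restrict hmu _ hk,
      layer_restrict hnu _ hk, ← lintegral_add_right _ (by fun_prop)]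
    apply setLIntegral_congr_fun measurableSet_Ioi
    intro t ht
    have ht0 : (0:ℝ) < t := ht
    simp only
    rw [tail_O hw hnn hsum hmu hnu ht0.le, ENNReal.ofReal_add measureReal_nonneg
      (le_max_right _ _), add_mul]
  have eB : B = B' + N := by
    rw [hB, hB', hN, layer_restrict hmu _ hk,
      layer_restrict hnu _ hk, ← lintegral_add_right _ (by fun_prop)]
    apply setLIntegral_congr_fun measurableSet_Ioi
    intro t ht
    have ht0 : (0:ℝ) < t := ht
    simp only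
    rw [tail_Oc hw hnn hsum hmu hnu ht0.le, ENNReal.ofReal_add measureReal_nonneg
      (le_max_right _ _), add_mul]
  have sM : A + B = ENNReal.ofReal (∫ y, y ^ k ∂mu) := by
    rw [← moment_lintegral hmu hpk]
    exact lintegral_add_compl _ (Oset_meas mu nu)
  have sM' : A' + B' = ENNReal.ofReal (∫ y, y ^ k ∂nu) := by
    rw [← moment_lintegral hnu hpk]
    exact lintegral_add_compl _ (Oset_meas mu nu)
  have fAB : A + B ≠ ∞ := by rw [sM]; exact ENNReal.ofReal_ne_top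
  have fAB' : A' + B' ≠ ∞ := by rw [sM']; exact ENNReal.ofReal_ne_top
  obtain ⟨fA, fB⟩ := ENNReal.add_ne_top.1 fAB
  obtain ⟨fA', fB'⟩ := ENNReal.add_ne_top.1 fAB'
  have fP : P ≠ ∞ := by rw [eA] at fA'; exact (ENNReal.add_ne_top.1 fA').2
  have fN : N ≠ ∞ := by rw [eB] at fB; exact (ENNReal.add_ne_top.1 fB).2
  have hM := moment_pos hmu hpk
  have hM' := moment_pos hnu hpk
  have rM : ∫ y, y ^ k ∂mu = A.toReal + B.toReal := by
    rw [← ENNReal.toReal_add fA fB, sM, ENNReal.toReal_ofReal hM.le]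
  have rM' : ∫ y, y ^ k ∂nu = A'.toReal + B'.toReal := by
    rw [← ENNReal.toReal_add fA' fB', sM', ENNReal.toReal_ofReal hM'.le]
  have e : ∀ (m : Measure ℝ) (c : ℝ), 0 < c →
      ∫⁻ x in Oset mu nu, ENNReal.ofReal (psi k * x ^ k / c) ∂m =
      ENNReal.ofReal (psi k / c) * ∫⁻ x in Oset mu nu, ENNReal.ofReal (x ^ k) ∂m := by
    intro m c hc
    rw [← lintegral_const_mul _ (by fun_prop)]
    apply lintegral_congr
    intro x
    rw [← ENNReal.ofReal_mul (by positivity)]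
    congr 1
    ring
  rw [e mu _ hM, e nu _ hM']
  change ENNReal.ofReal (psi k / ∫ y, y ^ k ∂mu) * A < ENNReal.ofReal (psi k / ∫ y, y ^ k ∂nu) * A'
  rw [← ENNReal.ofReal_toReal fA, ← ENNReal.ofReal_toReal fA',
    ← ENNReal.ofReal_mul (by positivity), ← ENNReal.ofReal_mul (by positivity)]
  have key : psi k / (∫ y, y ^ k ∂mu) * A.toReal < psi k / (∫ y, y ^ k ∂nu) * A'.toReal := by
    rw [rM, rM']
    apply ineq_real (p := P.toReal) (n := N.toReal) ENNReal.toReal_nonneg ENNReal.toReal_nonneg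
      (ENNReal.toReal_pos hPpos.ne' fP) (ENNReal.toReal_pos hNpos.ne' fN) _ _ hpk
    · rw [eA, ENNReal.toReal_add fA fP]
    · rw [eB, ENNReal.toReal_add fB' fN]
  rw [ENNReal.ofReal_lt_ofReal_iff]
  · exact key
  · refine lt_of_le_of_lt ?_ key
    positivity

/-- The dichotomy: two solutions are stochastically comparable. -/
theorem dichotomy (hw : 0 < w) (h0 : psi 0 = 0) (hnn : ∀ k, 0 ≤ psi k) (hsum : HasSum psi 1)
    (hmu : IsSolution w psi mu) (hnu : IsSolution w psi nu) :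
    (∀ x, Hf mu nu x ≤ 0) ∨ (∀ x, 0 ≤ Hf mu nu x) := by
  by_contra hcon
  push Not at hcon
  obtain ⟨⟨x, hx⟩, ⟨y, hy⟩⟩ := hcon
  have hx0 : 0 < x := by
    by_contra h
    rw [Hf_zero hmu hnu (not_lt.1 h)] at hx
    exact lt_irrefl _ hx
  have hy0 : 0 < y := by
    by_contra h
    rw [Hf_zero hmu hnu (not_lt.1 h)] at hy
    exact lt_irrefl _ hy
  have := powerBias_prob hnn hsum hmu
  have := powerBias_prob hnn hsum hnu
  have hineq := bias_ineq hw hnn hsum hmu hnu
  apply absurd hineq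
  rw [not_le]
  have e : ∀ m : Measure ℝ, powerBias psi m (Oset mu nu) =
      ∑' k, ∫⁻ x in Oset mu nu, ENNReal.ofReal (psi k * x ^ k / ∫ y, y ^ k ∂m) ∂m := by
    intro m
    unfold powerBias
    rw [Measure.sum_apply _ (Oset_meas mu nu)]
    congr 1
    funext k
    rw [withDensity_apply _ (Oset_meas mu nu)]
  have hex : ∃ k0, 0 < psi k0 := by
    by_contra hne
    push Not at hne
    have : psi = fun _ => 0 := by
      funext k
      exact le_antisymm (hne k) (hnn k)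
    rw [this] at hsum
    have := hsum.unique hasSum_zero
    norm_num at this
  obtain ⟨k0, hk0⟩ := hex
  have hfin : powerBias psi mu (Oset mu nu) ≠ ∞ := measure_ne_top _ _
  rw [e mu] at hfin ⊢
  rw [e nu]
  have hlt : ∀ k, 0 < psi k →
      ∫⁻ x in Oset mu nu, ENNReal.ofReal (psi k * x ^ k / ∫ y, y ^ k ∂mu) ∂mu <
      ∫⁻ x in Oset mu nu, ENNReal.ofReal (psi k * x ^ k / ∫ y, y ^ k ∂nu) ∂nu := by
    intro k hk
    have hk' : 0 < k := by
      rcases Nat.eq_zero_or_pos k with h | h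
      · rw [h, h0] at hk; exact absurd hk (lt_irrefl _)
      · exact h
    exact term_lt hw hnn hsum hmu hnu hx0 hx hy0 hy hk' hk
  apply ENNReal.tsum_lt_tsum hfin (i := k0)
  · intro k
    rcases (hnn k).eq_or_lt with h | h
    · simp [← h]
    · exact (hlt k h).le
  · exact hlt k0 hk0

end

end Pool.Agent.X19.PB
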