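import Mathlib
import Pool.Agent.X19.PB.Dich

open MeasureTheory Set Filter Topology ProbabilityTheory
open scoped ENNReal

namespace Pool.Agent.X19.PB

section
variable {w : ℝ} {psi : ℕ → ℝ} {mu nu : Measure ℝ}

lemma powerBias_scale {c : ℝ} (hc : 0 < c) (mu : Measure ℝ) :
    powerBias psi (mu.map fun x => c * x) = (powerBias psi mu).map fun x => c * x := by
  ext s hs
  rw [Measure.map_apply (by fun_prop) hs]
  have hs' : MeasurableSet ((fun x : ℝ => c * x) ⁻¹' s) := hs.preimage (by fun_prop)
  unfold powerBias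
  rw [Measure.sum_apply _ hs, Measure.sum_apply _ hs']
  congr 1
  funext k
  rw [withDensity_apply _ hs, withDensity_apply _ hs']
  rw [setLIntegral_map hs (by fun_prop) (by fun_prop)]
  have e : ∫ y, y ^ k ∂(mu.map fun x => c * x) = c ^ k * ∫ y, y ^ k ∂mu := by
    rw [integral_map (by fun_prop) (Measurable.aestronglyMeasurable (by fun_prop)),
      ← integral_const_mul]
    congr 1
    funext y
    rw [mul_pow]
  rw [e]
  apply lintegral_congr
  intro x
  congr 1
  have hck : c ^ k ≠ 0 := by positivity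
  rw [mul_pow, show psi k * (c ^ k * x ^ k) = c ^ k * (psi k * x ^ k) by ring]
  exact mul_div_mul_left _ _ hck

lemma scale_solution {c : ℝ} (hc : 0 < c) (hmu : IsSolution w psi mu) :
    IsSolution w psi (mu.map fun x => c * x) := by
  have := hmu.prob
  refine ⟨Measure.isProbabilityMeasure_map (by fun_prop), ?_, ?_, ?_⟩
  · rw [Measure.map_apply (by fun_prop) measurableSet_Iic]
    apply measure_mono_null _ hmu.pos
    intro x hx
    have hx' : c * x ≤ 0 := hx
    simp only [mem_Iic]
    by_contra h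
    have := mul_pos hc (not_le.1 h)
    linarith
  · intro k hk
    rw [integrable_map_measure (Measurable.aestronglyMeasurable (by fun_prop)) (by fun_prop)]
    have : ((fun x : ℝ => x ^ k) ∘ fun x => c * x) = fun x => c ^ k * x ^ k := by
      funext x
      simp [mul_pow]
    rw [this]
    exact (hmu.moment k hk).const_mul _
  · rw [powerBias_scale hc]
    have e1 : (betaLaw w).prod ((powerBias psi mu).map fun x => c * x) =
        ((betaLaw w).prod (powerBias psi mu)).map (Prod.map id fun x => c * x) := by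
      have h := Measure.map_prod_map (betaLaw w) (powerBias psi mu) (f := id)
        (g := fun x : ℝ => c * x) measurable_id (by fun_prop)
      rw [Measure.map_id] at h
      exact h
    rw [e1, Measure.map_map (by fun_prop) (by fun_prop)]
    have e2 : ((fun p : ℝ × ℝ => p.1 * p.2) ∘ Prod.map id fun x => c * x) =
        (fun x => c * x) ∘ fun p : ℝ × ℝ => p.1 * p.2 := by
      funext p
      simp only [Function.comp_apply, Prod.map, id]
      ring
    rw [e2, ← Measure.map_map (by fun_prop) (by fun_prop), hmu.fixed]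

lemma cdf_scale {c : ℝ} (hc : 0 < c) (hmu : IsSolution w psi mu) (x : ℝ) :
    cdf (mu.map fun x => c * x) x = cdf mu (x / c) := by
  have := hmu.prob
  have := (scale_solution hc hmu).prob
  rw [cdf_eq_real, cdf_eq_real, Measure.real, Measure.real,
    Measure.map_apply (by fun_prop) measurableSet_Iic]
  congr 2
  ext y
  simp only [mem_preimage, mem_Iic]
  rw [le_div_iff₀ hc, mul_comm]

lemma scale_dich (hw : 0 < w) (h0 : psi 0 = 0) (hnn : ∀ k, 0 ≤ psi k) (hsum : HasSum psi 1)
    (hmu : IsSolution w psi mu) (hnu : IsSolution w psi nu) {c : ℝ} (hc : 0 < c) :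
    (∀ x, cdf mu x ≤ cdf nu (x / c)) ∨ (∀ x, cdf nu (x / c) ≤ cdf mu x) := by
  rcases dichotomy hw h0 hnn hsum hmu (scale_solution hc hnu) with h | h
  · left
    intro x
    have := h x
    unfold Hf at this
    rw [cdf_scale hc hnu] at this
    linarith
  · right
    intro x
    have := h x
    unfold Hf at this
    rw [cdf_scale hc hnu] at this
    linarith

/-- Any two solutions are scaled versions of each other. -/
theorem unique_up_to_scaling (hw : 0 < w) (h0 : psi 0 = 0) (hnn : ∀ k, 0 ≤ psi k)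
    (hsum : HasSum psi 1) (hmu : IsSolution w psi mu) (hnu : IsSolution w psi nu) :
    ∃ c : ℝ, 0 < c ∧ mu = nu.map fun x => c * x := by
  have := hmu.prob
  have := hnu.prob
  -- the set of `c` such that `c Y` is stochastically smaller than `X`
  set L : Set ℝ := {c | 0 < c ∧ ∀ x, cdf mu x ≤ cdf nu (x / c)} with hL
  have hnot : ∀ c, 0 < c → c ∉ L → ∀ x, cdf nu (x / c) ≤ cdf mu x := by
    intro c hc hcL
    rcases scale_dich hw h0 hnn hsum hmu hnu hc with h | h
    · exact absurd ⟨hc, h⟩ hcL
    · exact h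
  -- right continuity at `0`
  have hr : ∀ m : Measure ℝ, IsSolution w psi m → ∃ x, 0 < x ∧ cdf m x < 1 / 2 := by
    intro m hm
    have h1 := (cdf m).right_continuous 0
    have h2 : Tendsto (fun x => cdf m x) (𝓝[≥] 0) (𝓝 0) := by
      have := h1.tendsto
      rwa [cdf_zero hm (le_refl 0)] at this
    have h3 : ∀ᶠ x in 𝓝[≥] (0:ℝ), cdf m x < 1 / 2 := h2.eventually (gt_mem_nhds (by norm_num))
    have h4 : ∀ᶠ x in 𝓝[>] (0:ℝ), cdf m x < 1 / 2 :=
      h3.filter_mono (nhdsWithin_mono _ Ioi_subset_Ici_self)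
    obtain ⟨x, hx1, hx2⟩ := (h4.and self_mem_nhdsWithin).exists
    exact ⟨x, hx2, hx1⟩
  have ht : ∀ m : Measure ℝ, IsSolution w psi m → ∃ x, 0 < x ∧ 1 / 2 < cdf m x := by
    intro m hm
    have h1 := (tendsto_cdf_atTop m).eventually (lt_mem_nhds (by norm_num : (1/2:ℝ) < 1))
    obtain ⟨x, hx1, hx2⟩ := (h1.and (eventually_gt_atTop 0)).exists
    exact ⟨x, hx2, hx1⟩
  -- nonempty
  have hLne : L.Nonempty := by
    obtain ⟨x1, hx1, hx1'⟩ := hr mu hmu
    obtain ⟨y1, hy1, hy1'⟩ := ht nu hnu
    refine ⟨x1 / y1, ?_⟩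
    by_contra hcL
    have h := hnot (x1 / y1) (by positivity) hcL x1
    have e : x1 / (x1 / y1) = y1 := by field_simp
    rw [e] at h
    linarith
  -- bounded above
  have hLbdd : BddAbove L := by
    obtain ⟨x2, hx2, hx2'⟩ := ht mu hmu
    obtain ⟨y2, hy2, hy2'⟩ := hr nu hnu
    refine ⟨x2 / y2, ?_⟩
    rintro c ⟨hc, hcx⟩
    by_contra hlt
    push Not at hlt
    have h := hcx x2
    have h2 : x2 / c ≤ y2 := by
      rw [div_le_iff₀ hc]
      rw [div_lt_iff₀ hy2] at hlt
      nlinarith
    have h3 := monotone_cdf nu h2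
    linarith
  obtain ⟨c0, hc0⟩ := hLne
  have hs0 : 0 < sSup L := lt_of_lt_of_le hc0.1 (le_csSup hLbdd hc0)
  set c := sSup L with hc
  refine ⟨c, hs0, ?_⟩
  have := (scale_solution hs0 hnu).prob
  apply Measure.eq_of_cdf
  apply StieltjesFunction.ext
  intro x
  rw [cdf_scale hs0 hnu]
  rcases le_or_gt x 0 with hx | hx
  · rw [cdf_zero hmu hx, cdf_zero hnu (div_nonpos_of_nonpos_of_nonneg hx hs0.le)]
  have hcont : ContinuousAt (fun t => cdf nu t) (x / c) :=
    (cdf_hasDerivAt hw hnn hsum hnu (by positivity)).continuousAt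
  have hcont2 : Tendsto (fun t => cdf nu (x / t)) (𝓝 c) (𝓝 (cdf nu (x / c))) := by
    have : ContinuousAt (fun t : ℝ => x / t) c := by
      apply ContinuousAt.div continuousAt_const continuousAt_id hs0.ne'
    exact ContinuousAt.comp (f := fun t : ℝ => x / t) hcont this
  apply le_antisymm
  · -- from `L`
    apply le_of_forall_pos_lt_add
    intro ε hε
    have h1 : ∀ᶠ t in 𝓝 c, cdf nu (x / t) < cdf nu (x / c) + ε :=
      hcont2.eventually (gt_mem_nhds (by linarith))
    obtain ⟨δ, hδ, hδ'⟩ := Metric.eventually_nhds_iff.1 h1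
    obtain ⟨t, htL, htc⟩ := exists_lt_of_lt_csSup ⟨c0, hc0⟩ (show c - δ < sSup L by rw [← hc]; linarith)
    have htle : t ≤ c := le_csSup hLbdd htL
    have h2 := hδ' (y := t) (by rw [Real.dist_eq, abs_lt]; constructor <;> linarith)
    exact lt_of_le_of_lt (htL.2 x) h2
  · -- from above
    have h1 : ∀ᶠ t in 𝓝[>] c, cdf nu (x / t) ≤ cdf mu x := by
      filter_upwards [self_mem_nhdsWithin] with t ht'
      have htc : c < t := ht'
      apply hnot t (by linarith)
      intro htL
      have := le_csSup hLbdd htL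
      linarith
    exact le_of_tendsto (hcont2.mono_left nhdsWithin_le_nhds) h1

end

end Pool.Agent.X19.PB
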